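import Pool.Agent.AFJ.Stmts

/-! Squad AFJ (MP_1906c1_mp), row YNB (helper97): the noise of `B = G ∘ G` restricted to `R`. -/

set_option autoImplicit false

open scoped BigOperators Matrix

noncomputable section

namespace Pool.Agent.AFJ.H97

open Pool.Agent.LE.QF Pool.Agent.AFJ

variable {X : Type} [Fintype X] [DecidableEq X]

/-- the first half, for every `v` -/
theorem ynb_half (G : Matrix X X ℂ) (κ : X → ℝ)
    (b R : Finset X) (κv κR Λ r : ℝ) (hN : Net G κ) (hκv : 0 < κv) (hκR : 0 < κR) (hΛ : 0 ≤ Λ)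
    (hr : 0 ≤ r) (hκb : ∀ c ∈ b, κv ≤ κ c) (hκRR : ∀ c ∈ R, κR ≤ κ c)
    (hL : ∀ x ∈ R, ∑ c ∈ b, KK G x c ^ 2 ≤ Λ) (hT : ∀ x ∈ R ∪ b, ∑ y ∈ R, κ y * KK G x y ≤ r)
    (v : X → ℂ) (hv : ∀ y, y ∉ R → v y = 0) :
    ∑ c ∈ b, ∑ x ∈ R, ‖(dB G c *ᵥ v) x‖ ^ 2 ≤
        4 * Real.sqrt (Λ * r / (κv * κR ^ 2)) * (r / κR) * ∑ y, ‖v y‖ ^ 2 := by
  have hKn : ∀ x y, 0 ≤ KK G x y := fun x y => by unfold KK; positivity
  have hKs : ∀ x y, KK G x y = KK G y x := fun x y => by unfold KK; rw [hN.hs x y]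
  obtain ⟨W, hW⟩ : ∃ W : X → ℝ, W = fun x => ∑ y ∈ R, KK G x y * ‖v y‖ ^ 2 := ⟨_, rfl⟩
  obtain ⟨m, hm⟩ : ∃ m : X → X → ℂ, m = fun x c => ∑ y, G x y * G c y * v y := ⟨_, rfl⟩
  have hW0 : ∀ x, 0 ≤ W x := fun x => by
    rw [hW]
    exact Finset.sum_nonneg fun y _ => mul_nonneg (hKn x y) (sq_nonneg _)
  -- the sum of `K` over `R`
  have hKR : ∀ x ∈ R ∪ b, ∑ y ∈ R, KK G x y ≤ r / κR := by
    intro x hx
    rw [le_div_iff₀ hκR, Finset.sum_mul]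
    refine le_trans (Finset.sum_le_sum fun c hc => ?_) (hT x hx)
    rw [mul_comm]
    exact mul_le_mul_of_nonneg_right (hκRR c hc) (hKn x c)
  -- the formula
  have f1 : ∀ c x, ‖(dB G c *ᵥ v) x‖ ^ 2 = 4 * (KK G x c * ‖m x c‖ ^ 2) := by
    intro c x
    have e1 : (dB G c *ᵥ v) x = -(2 * G x c * m x c) := by
      rw [hm]
      simp only [Matrix.mulVec, dotProduct, dB]
      rw [Finset.mul_sum, ← Finset.sum_neg_distrib]
      refine Finset.sum_congr rfl fun y _ => ?_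
      ring
    rw [e1, norm_neg, norm_mul, norm_mul, mul_pow, mul_pow]
    unfold KK
    norm_num
    ring
  -- (a)
  have f2 : ∀ x, ∑ c ∈ b, ‖m x c‖ ^ 2 ≤ W x / (κv * κR) := by
    intro x
    have h := hN.hn (fun y => G x y * v y / (κ y : ℂ))
    have e1 : ∀ c, ∑ y, G c y * ((κ y : ℂ) * (G x y * v y / (κ y : ℂ))) = m x c := by
      intro c
      rw [hm]
      refine Finset.sum_congr rfl fun y _ => ?_
      have hk : (κ y : ℂ) ≠ 0 := by
        have := (hN.hκ y).ne'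
        exact_mod_cast this
      field_simp
    simp only [e1] at h
    have e2 : ∑ y, κ y * ‖G x y * v y / (κ y : ℂ)‖ ^ 2 =
        ∑ y ∈ R, κ y * ‖G x y * v y / (κ y : ℂ)‖ ^ 2 := by
      symm
      refine Finset.sum_subset (Finset.subset_univ R) fun y _ hy => ?_
      rw [hv y hy]
      simp
    have e3 : ∀ y ∈ R, κ y * ‖G x y * v y / (κ y : ℂ)‖ ^ 2 ≤ KK G x y * ‖v y‖ ^ 2 / κR := by
      intro y hy
      have hk := hN.hκ y
      rw [norm_div, norm_mul, Complex.norm_real, Real.norm_of_nonneg hk.le, div_pow, mul_pow]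
      have e4 : κ y * (‖G x y‖ ^ 2 * ‖v y‖ ^ 2 / κ y ^ 2) = KK G x y * ‖v y‖ ^ 2 / κ y := by
        unfold KK
        field_simp
      rw [e4]
      exact div_le_div_of_nonneg_left (mul_nonneg (hKn x y) (sq_nonneg _)) hκR (hκRR y hy)
    have e5 : ∑ c, κ c * ‖m x c‖ ^ 2 ≤ W x / κR := by
      refine h.trans ?_
      rw [e2]
      refine (Finset.sum_le_sum e3).trans (le_of_eq ?_)
      rw [← Finset.sum_div, hW]
    have e6 : ∑ c ∈ b, κ c * ‖m x c‖ ^ 2 ≤ ∑ c, κ c * ‖m x c‖ ^ 2 :=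
      Finset.sum_le_sum_of_subset_of_nonneg (Finset.subset_univ b) fun c _ _ =>
        mul_nonneg (hN.hκ c).le (sq_nonneg _)
    have e7 : κv * ∑ c ∈ b, ‖m x c‖ ^ 2 ≤ ∑ c ∈ b, κ c * ‖m x c‖ ^ 2 := by
      rw [Finset.mul_sum]
      exact Finset.sum_le_sum fun c hc => mul_le_mul_of_nonneg_right (hκb c hc) (sq_nonneg _)
    have e8 : κv * ∑ c ∈ b, ‖m x c‖ ^ 2 ≤ W x / κR := e7.trans (e6.trans e5)
    rw [le_div_iff₀ (mul_pos hκv hκR)]
    rw [le_div_iff₀ hκR] at e8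
    calc (∑ c ∈ b, ‖m x c‖ ^ 2) * (κv * κR) = κv * (∑ c ∈ b, ‖m x c‖ ^ 2) * κR := by ring
      _ ≤ W x := e8
  -- (b)
  have f3 : ∀ x, ∀ c ∈ b, ‖m x c‖ ^ 2 ≤ r / κR * W x := by
    intro x c hc
    have e1 : ‖m x c‖ ≤ ∑ y ∈ R, ‖G c y‖ * (‖G x y‖ * ‖v y‖) := by
      rw [hm]
      have e2 : ∑ y, G x y * G c y * v y = ∑ y ∈ R, G x y * G c y * v y := by
        symm
        refine Finset.sum_subset (Finset.subset_univ R) fun y _ hy => ?_
        rw [hv y hy]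
        ring
      simp only
      rw [e2]
      refine (norm_sum_le _ _).trans (le_of_eq (Finset.sum_congr rfl fun y _ => ?_))
      rw [norm_mul, norm_mul]
      ring
    have e3 : (∑ y ∈ R, ‖G c y‖ * (‖G x y‖ * ‖v y‖)) ^ 2 ≤
        (∑ y ∈ R, ‖G c y‖ ^ 2) * ∑ y ∈ R, (‖G x y‖ * ‖v y‖) ^ 2 :=
      Finset.sum_mul_sq_le_sq_mul_sq _ _ _
    have e4 : ∑ y ∈ R, (‖G x y‖ * ‖v y‖) ^ 2 = W x := by
      rw [hW]
      refine Finset.sum_congr rfl fun y _ => ?_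
      rw [mul_pow]
      rfl
    rw [e4] at e3
    refine (pow_le_pow_left₀ (norm_nonneg _) e1 2).trans (e3.trans ?_)
    exact mul_le_mul_of_nonneg_right (hKR c (Finset.mem_union_right _ hc)) (hW0 x)
  -- the sum over `c`
  set s : ℝ := Real.sqrt (Λ * r / (κv * κR ^ 2)) with hs
  have hs0 : 0 ≤ s := Real.sqrt_nonneg _
  have hs2 : s ^ 2 = Λ * r / (κv * κR ^ 2) := Real.sq_sqrt (by positivity)
  have f4 : ∀ x ∈ R, ∑ c ∈ b, KK G x c * ‖m x c‖ ^ 2 ≤ s * W x := by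
    intro x hx
    have c1 : (∑ c ∈ b, KK G x c * ‖m x c‖ ^ 2) ^ 2 ≤
        (∑ c ∈ b, KK G x c ^ 2) * ∑ c ∈ b, (‖m x c‖ ^ 2) ^ 2 :=
      Finset.sum_mul_sq_le_sq_mul_sq b _ _
    have c2 : ∑ c ∈ b, (‖m x c‖ ^ 2) ^ 2 ≤ r / κR * W x * (W x / (κv * κR)) := by
      have d1 : ∀ c ∈ b, (‖m x c‖ ^ 2) ^ 2 ≤ r / κR * W x * ‖m x c‖ ^ 2 := by
        intro c hc
        rw [sq (‖m x c‖ ^ 2)]
        exact mul_le_mul_of_nonneg_right (f3 x c hc) (sq_nonneg _)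
      refine (Finset.sum_le_sum d1).trans ?_
      rw [← Finset.mul_sum]
      exact mul_le_mul_of_nonneg_left (f2 x) (mul_nonneg (div_nonneg hr hκR.le) (hW0 x))
    have c3 : (∑ c ∈ b, KK G x c * ‖m x c‖ ^ 2) ^ 2 ≤ (s * W x) ^ 2 := by
      refine c1.trans ?_
      refine (mul_le_mul (hL x hx) c2 (Finset.sum_nonneg fun c _ => sq_nonneg _) hΛ).trans
        (le_of_eq ?_)
      rw [mul_pow, hs2]
      field_simp
    exact (abs_le_of_sq_le_sq' c3 (mul_nonneg hs0 (hW0 x))).2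
  -- the sum over `x`
  have f5 : ∑ x ∈ R, W x ≤ r / κR * ∑ y, ‖v y‖ ^ 2 := by
    rw [hW]
    rw [Finset.sum_comm]
    have g1 : ∀ y ∈ R, ∑ x ∈ R, KK G x y * ‖v y‖ ^ 2 ≤ r / κR * ‖v y‖ ^ 2 := by
      intro y hy
      rw [← Finset.sum_mul]
      refine mul_le_mul_of_nonneg_right ?_ (sq_nonneg _)
      have g2 : ∑ x ∈ R, KK G x y = ∑ x ∈ R, KK G y x :=
        Finset.sum_congr rfl fun x _ => hKs x y
      rw [g2]
      exact hKR y (Finset.mem_union_left _ hy)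
    refine (Finset.sum_le_sum g1).trans ?_
    rw [← Finset.mul_sum]
    refine mul_le_mul_of_nonneg_left ?_ (div_nonneg hr hκR.le)
    exact Finset.sum_le_sum_of_subset_of_nonneg (Finset.subset_univ R) fun y _ _ => sq_nonneg _
  rw [Finset.sum_comm]
  have f6 : ∀ x ∈ R, ∑ c ∈ b, ‖(dB G c *ᵥ v) x‖ ^ 2 ≤ 4 * s * W x := by
    intro x hx
    simp only [f1]
    rw [← Finset.mul_sum]
    calc 4 * ∑ c ∈ b, KK G x c * ‖m x c‖ ^ 2 ≤ 4 * (s * W x) :=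
          mul_le_mul_of_nonneg_left (f4 x hx) (by norm_num)
      _ = 4 * s * W x := by ring
  refine (Finset.sum_le_sum f6).trans ?_
  rw [← Finset.mul_sum]
  calc 4 * s * ∑ x ∈ R, W x ≤ 4 * s * (r / κR * ∑ y, ‖v y‖ ^ 2) :=
        mul_le_mul_of_nonneg_left f5 (by positivity)
    _ = 4 * s * (r / κR) * ∑ y, ‖v y‖ ^ 2 := by ring

theorem ynb : YnbStmt := by
  intro X _ _ G κ b R κv κR Λ r hN hκv hκR hΛ hr hκb hκRR hL hT v hv
  refine ⟨ynb_half G κ b R κv κR Λ r hN hκv hκR hΛ hr hκb hκRR hL hT v hv, ?_⟩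
  have h := ynb_half G κ b R κv κR Λ r hN hκv hκR hΛ hr hκb hκRR hL hT
    (fun y => (starRingEnd ℂ) (v y)) (fun y hy => by simp [hv y hy])
  have e1 : ∀ c x, ‖((dB G c)ᴴ *ᵥ v) x‖ =
      ‖(dB G c *ᵥ fun y => (starRingEnd ℂ) (v y)) x‖ := by
    intro c x
    have e2 : ((dB G c)ᴴ *ᵥ v) x =
        (starRingEnd ℂ) ((dB G c *ᵥ fun y => (starRingEnd ℂ) (v y)) x) := by
      simp only [Matrix.mulVec, dotProduct, Matrix.conjTranspose_apply, map_sum, map_mul,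
        Complex.conj_conj]
      refine Finset.sum_congr rfl fun y _ => ?_
      have e3 : dB G c y x = dB G c x y := by
        unfold dB
        rw [hN.hs y x, hN.hs y c, hN.hs c x]
        ring
      rw [e3]
      rfl
    rw [e2, RCLike.norm_conj]
  simp only [e1]
  simp only [RCLike.norm_conj] at h
  exact h

end Pool.Agent.AFJ.H97
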